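import Pool.Agent.Lib.MP_8c1a1d_lc.GroundNodes

set_option autoImplicit false

/-!
# Miller measurability of all `Σ¹₁` sets does not imply the Hurewicz dichotomy

`K` is a well-ordered set of order type the regular uncountable cardinal `κ = κ^{<κ}`.  The
elements of `^κκ` are the functions `K → K`, the elements of `^{<κ}κ` are the nodes `Node K`.

A statement about the extension by a poset `P` is given by its truth value, the predicate on `P`
which says which conditions force it.  The predicates `fNot`, `fImp`, `fAnd`, `fOr`, `fAll`, `fEx`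
are the clauses of the forcing relation; `FunName` and `SetName` are the names of functions between
ground model sets and of subsets of ground model sets.

The four parts of the theorem give a positive answer to the question: start with a model of
`ZFC + κ^{<κ} = κ` (for example of GCH), with `κ` regular and uncountable.

* Add `ℵ₁` Cohen reals.  By part (1), `κ` is regular, `κ^{<κ} = κ`, and the set `U` of all nodes
  of the ground model is a witness in the extension.
* Over this extension add `κ⁺` Cohen functions `κ → κ`.  By part (2), no nodes are added, `κ` is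
  regular, `κ^{<κ} = κ`, every `Σ¹₁` subset of `^κκ` is `κ`-Miller measurable, and `U` is still a
  witness.
* By part (3), a theorem of ZFC applied in the last model, `[U]` is a closed set (so `Σ¹₁`) which
  fails the Hurewicz dichotomy.

Part (4) is for the second question (`κ` weakly compact).  Start with a weakly compact `κ`, add
`ℵ₁` Cohen reals, and then force with the usual preparation, the iteration with Easton support of
the posets `Add(α,1)` for inaccessible `α < κ`, which is `ω`-closed and `κ`-c.c.; by part (4) it
preserves that `U` is a witness.  By a theorem of Silver `κ` is weakly compact after the final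
forcing, which adds `κ⁺` Cohen functions `κ → κ`.
-/

namespace Pool.Agent.Results.MP_8c1a1d_lc.CohenModel

open Cardinal Order Pool.Agent.KM

universe u

/-- For a regular uncountable `κ` with `κ^{<κ} = κ`:
(1) adding at least `ℵ₁` and at most `κ` Cohen reals forces that `κ` is regular, `κ^{<κ} = κ` and
the set of ground model nodes is a witness;
(2) adding more than `κ` Cohen functions `κ → κ` forces that there are no new nodes, `κ` is
regular, `κ^{<κ} = κ`, every `Σ¹₁` set is `κ`-Miller measurable, and every witness of the ground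
model is a witness;
(3) if `U` is a witness then `[U]` is a closed set, and hence `Σ¹₁`, which fails the Hurewicz
dichotomy;
(4) `ω`-closed `κ`-c.c. posets preserve witnesses. -/
theorem result (κ : Cardinal.{u}) (hreg : κ.IsRegular) (hunc : ℵ₀ < κ) (hpow : κ ^< κ = κ)
    (K : Type u) [LinearOrder K] [OrderBot K] [WellFoundedLT K] [SuccOrder K]
    (hK : Ordinal.type (fun a b : K => a < b) = κ.ord) :
    (∀ E : Type u, ℵ₀ < #E → #E ≤ κ → ∀ p : Fn ℵ₀ E (ULift.{u} Bool),
      fRegular (Fn ℵ₀ E (ULift.{u} Bool)) K p ∧ fPowSelf (Fn ℵ₀ E (ULift.{u} Bool)) K p ∧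
        fWitness (checkSet (Set.univ : Set (Node K))) p) ∧
    (∀ ι : Type u, κ < #ι → ∀ p : Fn κ (ι × K) K,
      fNoNewNodes (Fn κ (ι × K) K) K p ∧ fRegular (Fn κ (ι × K) K) K p ∧
        fPowSelf (Fn κ (ι × K) K) K p ∧ fMillerMeasurable (Fn κ (ι × K) K) K p ∧
        ∀ U : Set (Node K), Witness U → fWitness (checkSet U) p) ∧
    (∀ U : Set (Node K), Witness U →
      IsClosed (X := GB K) (Body U) ∧ IsSigma11 (Body U) ∧ ¬ Hurewicz κ (K := K) (Body U)) ∧
    (∀ (R : Type u) [Preorder R], IsOmegaClosed R → HasCC κ R →
      ∀ U : Set (Node K), Witness U → ∀ p : R, fWitness (checkSet U) p) := by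
  have hpow' : ∀ c < κ, κ ^ c ≤ κ := fun c hc => (Cardinal.le_powerlt κ hc).trans hpow.le
  have := noMaxOrder_of_type hreg hK
  have hcard : #K = κ := card_of_type hK
  have hA : #(ULift.{u} Bool) ≤ ℵ₀ := Cardinal.mk_le_aleph0
  refine ⟨?_, ?_, ?_, ?_⟩
  · intro E hE hEκ p
    exact ⟨fRegular_reals hreg hunc hK hA p, fPowSelf_reals hreg hunc hpow' hK hEκ hA p,
      fUnbounded_ground hreg hunc hK hA p, fNoCantor_ground hE p⟩
  · intro ι hι p
    have hcl : IsClosedPoset K (Fn κ (ι × K) K) := Fn.isClosedPoset hreg (card_Iio_lt hK)
    have hω : IsOmegaClosed (Fn κ (ι × K) K) := by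
      intro f hf
      have hmono : ∀ m n, m ≤ n → f n ≤ f m := by
        intro m n hmn
        induction n, hmn using Nat.le_induction with
        | base => exact le_rfl
        | succ n _ ih => exact (hf n).trans ih
      obtain ⟨q, hq, _⟩ := Fn.exists_inf hreg (I := ULift.{u} ℕ) (by
        rw [Cardinal.mk_uLift, Cardinal.mk_nat, Cardinal.lift_aleph0]; exact hunc)
        (fun n => f n.down) (fun m n => by
          rcases le_total m.down n.down with h | h
          · right; exact hmono _ _ h
          · left; exact hmono _ _ h)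
      exact ⟨q, fun n => hq ⟨n⟩⟩
    refine ⟨fun h β q _ => ?_, fRegular_of_closed hreg hK hcl p,
      fPowSelf_of_closed hreg hpow' hK hcl p, millerMeasurable hreg hunc hpow' hK hι p,
      fun U hU => ⟨fUnbounded_of_cohen hreg hpow' hcard.le hK hU.1 p,
        fNoCantor_of_closed hω hU.2 p⟩⟩
    obtain ⟨r, hr, t, ht, hst⟩ := decide_res hcl h β q
    exact ⟨r, hr, t, ht, hst⟩
  · intro U hU
    obtain ⟨h1, h2⟩ := not_hurewicz hreg hK hU.1 (noPerfect_of_noCantor hreg hunc hK hU.2)
    refine ⟨h1, ⟨{tu | tu.1 ∈ U}, ?_⟩, h2⟩
    ext x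
    exact ⟨fun h => ⟨x, h⟩, fun ⟨_, h⟩ => h⟩
  · intro R _ hω hcc U hU p
    exact ⟨fUnbounded_of_cc hreg hK hcc hU.1 p, fNoCantor_of_closed hω hU.2 p⟩

end Pool.Agent.Results.MP_8c1a1d_lc.CohenModel
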